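import Pool.Agent.Run7.h102.LS.Stm

/-! # LAM: order filtration on closed lists -/

set_option autoImplicit false

namespace Run7.h781.LS

open MvPolynomial Finset
open Run7.h102.LS

section
variable {A : Type} [CommRing A] [Algebra K A]

omit [Algebra K A] in
theorem add_self' [Algebra K A] (x : A) : x + x = 0 := by
  have h : x + x = (1 + 1 : K) • x := by rw [add_smul, one_smul]
  rw [h, show (1 + 1 : K) = 0 from by decide, zero_smul]

theorem Xs_sum (m : ℕ) : (Xs K m).sum = ∑ i, X i := by
  rw [Xs, Fin.sum_univ_def]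

theorem Xs_prod (m : ℕ) : (Xs K m).prod = ∏ i, X i := by
  rw [Xs, Fin.prod_univ_def]

theorem ev_sum' {m : ℕ} (w : List A) (hw : w.length = m) :
    ev (∑ i, X i : MvPolynomial (Fin m) K) w = w.sum := by
  have h := map_Xs (R := K) w hw
  rw [ev_getD, ← Xs_sum, map_list_sum]
  exact congrArg List.sum h

theorem ev_prod' {m : ℕ} (w : List A) (hw : w.length = m) :
    ev (∏ i, X i : MvPolynomial (Fin m) K) w = w.prod := by
  have h := map_Xs (R := K) w hw
  rw [ev_getD, ← Xs_prod, map_list_prod]
  exact congrArg List.prod h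

theorem G0_length (m : ℕ) : (G0 m).length = m + 1 := by
  rw [G0, List.length_cons, Xs_length]

theorem G0_sum (m : ℕ) : (G0 m).sum = 0 := by
  rw [G0, List.sum_cons, Xs_sum]
  exact add_self' _

/-- every closed list is the image of the universal one -/
theorem map_G0 {m : ℕ} (l : List A) (hl : l.length = m + 1) (hs : l.sum = 0) :
    (G0 m).map (aeval (fun i : Fin m => l.tail.getD i 0) : MvPolynomial (Fin m) K →ₐ[K] A) = l := by
  cases l with
  | nil => simp at hl
  | cons a t =>
    have ht : t.length = m := by simpa using hl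
    rw [List.sum_cons] at hs
    have ha : a = t.sum := by
      rw [eq_neg_of_add_eq_zero_left hs, neg_eq_iff_add_eq_zero]
      exact add_self' _
    rw [G0, List.map_cons, List.tail_cons, map_Xs (R := K) t ht]
    congr 1
    rw [ha]
    exact ev_sum' t ht

open Classical in
/-- the closed evaluation -/
noncomputable def GG (m : ℕ) (q : MvPolynomial (Fin m) K) (w : List A) : A :=
  if w.sum = 0 ∧ w.length = m + 1 then ev q w.tail else 0

theorem GG_lie {m : ℕ} {q : MvPolynomial (Fin m) K} (h : CH q) :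
    Lie (m + 1) (GG m q : List A → A) := by
  intro u v hu hv huv
  have hl : (u ++ v).length = m + 1 := by simp [huv]
  by_cases hs : (u ++ v).sum = 0
  · have e1 : sh u v (GG m q : List A → A) = sh u v (fun w => ev q w.tail) := by
      refine sh_congr _ u v rfl _ _ fun w hw => ?_
      unfold GG
      rw [if_pos ⟨by rw [hw.sum_eq]; exact hs, by rw [hw.length_eq]; exact hl⟩]
    rw [e1]
    set φ : MvPolynomial (Fin m) K →ₐ[K] A := aeval (fun i : Fin m => (u ++ v).tail.getD i 0) with hφ
    have e : (G0 m).map φ = u ++ v := map_G0 (u ++ v) hl hs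
    have hu0 : 0 < u.length := List.length_pos_iff.2 hu
    have hv0 : 0 < v.length := List.length_pos_iff.2 hv
    have e2 : ((G0 m).take u.length).map φ = u := by
      rw [List.map_take, e, List.take_left]
    have e3 : ((G0 m).drop u.length).map φ = v := by
      rw [List.map_drop, e, List.drop_left]
    rw [← e2, ← e3, sh_map]
    have h1 := h u.length hu0 (by omega)
    have h2 := congrArg φ.toAddMonoidHom h1
    rw [sh_hom, map_zero] at h2
    refine Eq.trans ?_ h2
    congr 1
    funext w
    show ev q (w.map φ).tail = φ (ev q w.tail)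
    rw [← ev_map, List.map_tail]
  · have e1 : sh u v (GG m q : List A → A) = sh u v (fun _ => (0 : A)) := by
      refine sh_congr _ u v rfl _ _ fun w hw => ?_
      unfold GG
      rw [if_neg]
      rintro ⟨h1, -⟩
      rw [hw.sum_eq] at h1
      exact hs h1
    rw [e1, sh_zero]

theorem GG_zero (hant : S_ANTI) {m : ℕ} {q : MvPolynomial (Fin m) K} (h : CH q)
    (hσ : (∑ i, X i) ∣ q) (p v : List A) : GG m q (p ++ 0 :: v) = 0 := by
  by_cases hl : p.length + v.length + 1 = m + 1
  · rw [hant A A _ (m + 1) (GG m q) add_self' (GG_lie h) p v 0 hl]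
    have e : (fun w : List A => GG m q (0 :: w)) = fun _ => (0 : A) := by
      funext w
      unfold GG
      split_ifs with hw
      · obtain ⟨q1, rfl⟩ := hσ
        obtain ⟨h1, h2⟩ := hw
        rw [List.sum_cons, zero_add] at h1
        rw [List.tail_cons, ev_mul, ev_sum' w (by simpa using h2), h1, zero_mul]
      · rfl
    rw [e, sh_zero]
  · unfold GG
    rw [if_neg]
    rintro ⟨-, h2⟩
    rw [List.length_append, List.length_cons] at h2
    omega

end

theorem X_dvd (hant : S_ANTI) {m : ℕ} {q : MvPolynomial (Fin m) K} (h : CH q)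
    (hσ : (∑ i, X i) ∣ q) (i : Fin m) : X i ∣ q := by
  have hq : Ideal.Quotient.mkₐ K (Ideal.span {(X i : MvPolynomial (Fin m) K)}) q =
      GG m q ((G0 m).map (Ideal.Quotient.mkₐ K (Ideal.span {(X i : MvPolynomial (Fin m) K)}))) := by
    unfold GG
    rw [if_pos]
    · rw [G0, List.map_cons, List.tail_cons, ev_map, ev_Xs]
    · rw [← map_list_sum, G0_sum, map_zero, List.length_map, G0_length]
      exact ⟨rfl, rfl⟩
  have hmem : (0 : MvPolynomial (Fin m) K ⧸ Ideal.span {(X i : MvPolynomial (Fin m) K)}) ∈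
      (G0 m).map (Ideal.Quotient.mkₐ K (Ideal.span {(X i : MvPolynomial (Fin m) K)})) := by
    refine List.mem_map.2 ⟨X i, ?_, ?_⟩
    · rw [G0, Xs]
      exact List.mem_cons_of_mem _ (List.mem_map.2 ⟨i, List.mem_finRange i, rfl⟩)
    · rw [Ideal.Quotient.mkₐ_eq_mk, Ideal.Quotient.eq_zero_iff_mem]
      exact Ideal.mem_span_singleton_self _
  obtain ⟨p, v, hpv⟩ := List.append_of_mem hmem
  rw [hpv, GG_zero hant h hσ, Ideal.Quotient.mkₐ_eq_mk, Ideal.Quotient.eq_zero_iff_mem,
    Ideal.mem_span_singleton] at hq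
  exact hq

theorem sigma_dvd {m : ℕ} {q : MvPolynomial (Fin (m + 1)) K} (h : ev q (G0 m) = 0) :
    (∑ i, X i) ∣ q := by
  obtain ⟨I, hI⟩ : ∃ I : Ideal (MvPolynomial (Fin (m + 1)) K), I = Ideal.span {∑ i, X i} :=
    ⟨_, rfl⟩
  obtain ⟨φ, hφ⟩ : ∃ φ : MvPolynomial (Fin (m + 1)) K →ₐ[K] (MvPolynomial (Fin (m + 1)) K ⧸ I),
    φ = Ideal.Quotient.mkₐ K I := ⟨_, rfl⟩
  obtain ⟨ψ, hψ⟩ : ∃ ψ : MvPolynomial (Fin m) K →ₐ[K] (MvPolynomial (Fin (m + 1)) K ⧸ I),
    ψ = aeval (fun j : Fin m => φ (X j.succ)) := ⟨_, rfl⟩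
  have hσ : φ (∑ i, X i) = 0 := by
    rw [hφ, Ideal.Quotient.mkₐ_eq_mk, Ideal.Quotient.eq_zero_iff_mem, hI]
    exact Ideal.mem_span_singleton_self _
  have e : (G0 m).map ψ = (Xs K (m + 1)).map φ := by
    rw [G0, Xs, Xs, List.finRange_succ, List.map_cons, List.map_cons, List.map_cons, List.map_map,
      List.map_map, List.map_map]
    congr 1
    · rw [map_sum]
      rw [Fin.sum_univ_succ, map_add, map_sum] at hσ
      have h1 : ∑ i : Fin m, ψ (X i) = ∑ i : Fin m, φ (X i.succ) :=
        Finset.sum_congr rfl fun i _ => by rw [hψ, aeval_X]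
      rw [h1, eq_comm, eq_neg_of_add_eq_zero_left hσ, neg_eq_iff_add_eq_zero]
      exact add_self' _
    · apply List.map_congr_left
      intro j _
      simp only [Function.comp_apply]
      rw [hψ, aeval_X]
  have h1 : φ q = 0 := by
    have h2 : ψ (ev q (G0 m)) = φ (ev q (Xs K (m + 1))) := by
      rw [← ev_map, e, ev_map]
    rw [h, map_zero, ev_Xs] at h2
    exact h2.symm
  rw [hφ, Ideal.Quotient.mkₐ_eq_mk, Ideal.Quotient.eq_zero_iff_mem, hI,
    Ideal.mem_span_singleton] at h1
  exact h1

/-- the product of the forms -/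
noncomputable def ee (m : ℕ) : MvPolynomial (Fin m) K := (∑ i, X i) * ∏ i, X i

theorem ee_homog (m : ℕ) : (ee m).IsHomogeneous (m + 1) := by
  have h1 : (∑ i : Fin m, X i : MvPolynomial (Fin m) K).IsHomogeneous 1 :=
    IsHomogeneous.sum _ _ _ fun i _ => isHomogeneous_X K i
  have h2 : (∏ i : Fin m, X i : MvPolynomial (Fin m) K).IsHomogeneous (∑ _i : Fin m, 1) :=
    IsHomogeneous.prod _ _ _ fun i _ => isHomogeneous_X K i
  have h3 := h1.mul h2
  rw [Finset.sum_const, Finset.card_univ, Fintype.card_fin, smul_eq_mul, mul_one, add_comm] at h3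
  exact h3

theorem sum_X_ne_zero {m : ℕ} (hm : 1 ≤ m) : (∑ i, X i : MvPolynomial (Fin m) K) ≠ 0 := by
  intro h
  have h1 := congrArg (MvPolynomial.eval (fun i : Fin m => if i = ⟨0, hm⟩ then (1 : K) else 0)) h
  simp at h1

theorem ee_ne_zero {m : ℕ} (hm : 1 ≤ m) : ee m ≠ 0 :=
  mul_ne_zero (sum_X_ne_zero hm) (Finset.prod_ne_zero_iff.2 fun i _ => X_ne_zero i)

theorem ev_ee {m : ℕ} (w : List (MvPolynomial (Fin m) K)) (hw : w.Perm (G0 m)) :
    ev (ee m) w.tail = ee m := by
  have hl := hw.length_eq
  have hs := hw.sum_eq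
  have hp := hw.prod_eq
  rw [G0_length] at hl
  rw [G0_sum] at hs
  cases w with
  | nil => simp at hl
  | cons a t =>
    have ht : t.length = m := by simpa using hl
    rw [List.sum_cons] at hs
    have ha : a = t.sum := by
      rw [eq_neg_of_add_eq_zero_left hs, neg_eq_iff_add_eq_zero]
      exact add_self' _
    rw [List.tail_cons, ee, ev_mul, ev_sum' t ht, ev_prod' t ht, ← ha, ← List.prod_cons, hp, G0,
      List.prod_cons, Xs_prod]

theorem homog_factor {τ : Type} {e q p : MvPolynomial τ K} {d n : ℕ} (he : e.IsHomogeneous d)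
    (hq : q.IsHomogeneous n) (h : q = e * p) :
    (d ≤ n → q = e * homogeneousComponent (n - d) p) ∧ (n < d → q = 0) := by
  have h1 : q = ∑ i ∈ range (p.totalDegree + 1),
      homogeneousComponent n (e * homogeneousComponent i p) := by
    rw [← map_sum, ← Finset.mul_sum, sum_homogeneousComponent, ← h, homogeneousComponent_eq_self hq]
  have h2 : ∀ i, homogeneousComponent n (e * homogeneousComponent i p) =
      if n = d + i then e * homogeneousComponent i p else 0 := fun i =>
    homogeneousComponent_of_mem (he.mul (homogeneousComponent_isHomogeneous i p))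
  simp only [h2] at h1
  refine ⟨fun hd => ?_, fun hd => ?_⟩
  · rw [Finset.sum_eq_single (n - d)] at h1
    · rw [if_pos (by omega)] at h1
      exact h1
    · intro i _ hi
      rw [if_neg (by omega)]
    · intro hi
      rw [Finset.mem_range, not_lt] at hi
      rw [homogeneousComponent_eq_zero (n - d) p (by omega), mul_zero, ite_self]
  · rw [h1]
    exact Finset.sum_eq_zero fun i _ => if_neg (by omega)

theorem ee_dvd (hant : S_ANTI) (hdiv : S_DIV) {m : ℕ} (hm : 2 ≤ m) {q : MvPolynomial (Fin m) K}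
    (h : CH q) (hσ : (∑ i, X i) ∣ q) : ee m ∣ q := by
  classical
  have h1 := hdiv m 1 q (insert Finset.univ (Finset.univ.image fun i : Fin m => {i})) ?_ ?_
  · rw [pow_one, Finset.prod_insert, Finset.prod_image] at h1
    · have e1 : lf (Finset.univ : Finset (Fin m)) = ∑ i, X i := rfl
      have e2 : ∀ i : Fin m, lf {i} = X i := fun i => by rw [lf, Finset.sum_singleton]
      simp only [e1, e2] at h1
      exact h1
    · intro i _ j _ hij
      exact Finset.singleton_injective hij
    · intro hu
      obtain ⟨i, _, hi⟩ := Finset.mem_image.1 hu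
      have := congrArg Finset.card hi
      rw [Finset.card_singleton, Finset.card_univ, Fintype.card_fin] at this
      omega
  · intro S hS
    rcases Finset.mem_insert.1 hS with rfl | hS
    · exact ⟨⟨0, by omega⟩, Finset.mem_univ _⟩
    · obtain ⟨i, _, rfl⟩ := Finset.mem_image.1 hS
      exact Finset.singleton_nonempty i
  · intro S hS
    rw [pow_one]
    rcases Finset.mem_insert.1 hS with rfl | hS
    · exact hσ
    · obtain ⟨i, _, rfl⟩ := Finset.mem_image.1 hS
      rw [lf, Finset.sum_singleton]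
      exact X_dvd hant h hσ i

theorem CH_factor {m : ℕ} (hm : 1 ≤ m) {q p : MvPolynomial (Fin m) K} (h : CH q)
    (hqp : q = ee m * p) : CH p := by
  intro i h0 hi
  have h1 := h i h0 hi
  have h2 : sh ((G0 m).take i) ((G0 m).drop i) (fun w => ev q w.tail) =
      sh ((G0 m).take i) ((G0 m).drop i) (fun w => ee m * ev p w.tail) := by
    refine sh_congr _ _ _ rfl _ _ fun w hw => ?_
    rw [List.take_append_drop] at hw
    rw [hqp, ev_mul, ev_ee w hw]
  rw [h2] at h1
  have h3 := sh_hom (AddMonoidHom.mulLeft (ee m)) ((G0 m).take i) ((G0 m).drop i)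
    (fun w => ev p w.tail)
  have h4 : ee m * sh ((G0 m).take i) ((G0 m).drop i) (fun w => ev p w.tail) = 0 :=
    h3.trans h1
  exact (mul_eq_zero.1 h4).resolve_left (ee_ne_zero hm)

instance fin_homog (m n : ℕ) : Module.Finite K (homogeneousSubmodule (Fin m) K n) :=
  Module.Finite.iff_fg.2 (homogeneousSubmodule_fg (σ := Fin m) (R := K) n)

instance fin_Lam (m n : ℕ) : Module.Finite K (Lam m n) :=
  Module.Finite.of_injective
    (Submodule.inclusion (show Lam m n ≤ homogeneousSubmodule (Fin m) K n from fun _ hq => hq.1))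
    (Submodule.inclusion_injective _)

theorem t_LAM : S_LAM := by
  intro hant hdiv m n hm
  obtain ⟨L, hL⟩ : ∃ L : MvPolynomial (Fin (m + 1)) K →ₐ[K] MvPolynomial (Fin m) K,
    L = aeval (fun i : Fin (m + 1) => (G0 m).getD i 0) := ⟨_, rfl⟩
  have hLev : ∀ q, L q = ev q (G0 m) := fun q => by rw [hL, ev_getD]
  have hhom : ∀ q ∈ Lam (m + 1) n, L q ∈ homogeneousSubmodule (Fin m) K n := by
    intro q hq
    rw [mem_homogeneousSubmodule, hL]
    have := hq.1.aeval (fun i : Fin (m + 1) => (G0 m).getD i 0) (n := 1) (fun i => by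
      rw [G0]
      refine Fin.cases ?_ (fun j => ?_) i
      · simp only [Fin.val_zero, List.getD_cons_zero]
        exact IsHomogeneous.sum _ _ _ fun i _ => isHomogeneous_X K i
      · simp only [Fin.val_succ, List.getD_cons_succ]
        rw [List.getD_eq_getElem _ _ (by rw [Xs_length]; exact j.2)]
        simp only [Xs, List.getElem_map]
        exact isHomogeneous_X K _)
    rwa [one_mul] at this
  obtain ⟨ρ, hρ⟩ : ∃ ρ : Lam (m + 1) n →ₗ[K] homogeneousSubmodule (Fin m) K n,
      ∀ q, (ρ q : MvPolynomial (Fin m) K) = L q :=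
    ⟨(L.toLinearMap.domRestrict (Lam (m + 1) n)).codRestrict _ fun q => hhom q.1 q.2,
      fun q => rfl⟩
  have hrank := LinearMap.finrank_range_add_finrank_ker ρ
  have hr1 : Module.finrank K (LinearMap.range ρ) ≤
      Module.finrank K (homogeneousSubmodule (Fin m) K n) := Submodule.finrank_le _
  have hker : ∀ q ∈ LinearMap.ker ρ, ee (m + 1) ∣ (q : MvPolynomial (Fin (m + 1)) K) := by
    intro q hq
    have h1 : ev (q : MvPolynomial (Fin (m + 1)) K) (G0 m) = 0 := by
      rw [← hLev, ← hρ, LinearMap.mem_ker.1 hq]; rfl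
    exact ee_dvd hant hdiv (by omega) q.2.2 (sigma_dvd h1)
  have hr2 : Module.finrank K (LinearMap.ker ρ) ≤
      if m + 2 ≤ n then Module.finrank K (Lam (m + 1) (n - (m + 2))) else 0 := by
    split_ifs with hn
    · rw [← Submodule.finrank_map_subtype_eq]
      have h1 : (LinearMap.ker ρ).map (Lam (m + 1) n).subtype ≤
          (Lam (m + 1) (n - (m + 2))).map (LinearMap.mulLeft K (ee (m + 1))) := by
        rintro _ ⟨q, hq, rfl⟩
        obtain ⟨p, hp⟩ := hker q hq
        have h2 := (homog_factor (ee_homog (m + 1)) q.2.1 hp).1 hn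
        exact ⟨homogeneousComponent (n - (m + 1 + 1)) p,
          ⟨homogeneousComponent_isHomogeneous _ _, CH_factor (by omega) q.2.2 h2⟩, h2.symm⟩
      exact (Submodule.finrank_mono h1).trans (Submodule.finrank_map_le _ _)
    · have h1 : LinearMap.ker ρ = ⊥ := by
        rw [eq_bot_iff]
        intro q hq
        obtain ⟨p, hp⟩ := hker q hq
        have h2 := (homog_factor (ee_homog (m + 1)) q.2.1 hp).2 (by omega)
        rw [Submodule.mem_bot]
        exact Subtype.ext h2
      rw [h1, finrank_bot]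
  omega

end Run7.h781.LS
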